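import Pool.Agent.Q9.EL.EC

/-!
# The boundary values of the L-series of an elliptic curve control its size near the edge

`E` is an elliptic curve over a number field `K` of degree `d`.  The Euler product `L(E/K, s)`
converges for `Re s > 3/2`; the conjecture of Hasse and Weil says that it is an entire function, but in
general a continuation to any point of the edge `Re s = 3/2` is not known.  Nothing of this kind is
assumed.

It is known (starting files) that `L(E/K, s)` has a boundary value `l(τ)` at `3/2 + iτ`, in every angle,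
for all `τ` outside a set of dimension `0`.  We prove that the powers `|l|^c`, `|c| < 1/(2d)`, of the
boundary function are locally integrable, and that their means over an interval of length `h ≤ 1/2` of
the edge are comparable with the value of `|L|^c` at the distance `h` from the centre of the interval,
with constants that depend only on `d |c|`.  (For an analytic function up to the edge with a zero or a
pole of order `m` the range of `c` is the natural one: `m` could be as large as `2d` for an arbitrary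
Euler product of this kind.)

So `|l|^c` is a Muckenhoupt `A_2` weight on the intervals of length `≤ 1/2`, with the same constant for
all elliptic curves over all number fields of degree `d`; the function `log |l|` has mean oscillation
`O(d)`; and the size of `L(E/K, s)` near a point of the edge, in particular the order of a zero or a pole,
which according to the conjecture is `0`, is the exponent of growth of the means of `|l|^c` around it.

The proof is from the starting modules `Pool.Agent.TH339.MP` (helper339: majorant principle for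
exponentials of Dirichlet series and a comparison with powers of `ζ`), where the theorem is proved for
exponentials of Dirichlet series over the prime powers; it had not been handed in.
-/

set_option autoImplicit false

namespace Pool.Agent.Results.MP_bf61d2_nt.EdgeHarnack

open NumberField IsDedekindDomain MeasureTheory Filter Topology

/-- `W v` is, for every finite place `v`, an integral model of `E` with discriminant minimal at
`v`. -/
def MinimalModels {K : Type} [Field K] [NumberField K] (E : WeierstrassCurve K)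
    (W : HeightOneSpectrum (𝓞 K) → WeierstrassCurve (𝓞 K)) : Prop :=
  ∀ v : HeightOneSpectrum (𝓞 K),
    (∃ C : WeierstrassCurve.VariableChange K, C • (W v).map (algebraMap (𝓞 K) K) = E) ∧
    ∀ W' : WeierstrassCurve (𝓞 K),
      (∃ C : WeierstrassCurve.VariableChange K, C • W'.map (algebraMap (𝓞 K) K) = E) →
      ∀ n : ℕ, (W v).Δ ∈ v.asIdeal ^ n → W'.Δ ∈ v.asIdeal ^ n

open Classical in
/-- The Euler factor at `v`, `(1 - a_v Nv^{-s} + Nv^{1-2s})⁻¹` if the reduction at `v` is good and
`(1 - a_v Nv^{-s})⁻¹` if it is bad, where `a_v` is `Nv` minus the number of affine points of the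
reduction of `W v` (for bad reduction this is `1`, `-1`, `0` in the split multiplicative, non-split
multiplicative, additive case). -/
noncomputable def localFactor {K : Type} [Field K] [NumberField K]
    (W : HeightOneSpectrum (𝓞 K) → WeierstrassCurve (𝓞 K)) (v : HeightOneSpectrum (𝓞 K))
    (s : ℂ) : ℂ :=
  (1 - ((Ideal.absNorm v.asIdeal : ℂ)
        - (Nat.card {xy : (𝓞 K ⧸ v.asIdeal) × (𝓞 K ⧸ v.asIdeal) //
            ((W v).map (Ideal.Quotient.mk v.asIdeal)).toAffine.Equation xy.1 xy.2} : ℂ))
        * (Ideal.absNorm v.asIdeal : ℂ) ^ (-s)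
    + (if (W v).Δ ∈ v.asIdeal then 0 else (Ideal.absNorm v.asIdeal : ℂ))
        * (Ideal.absNorm v.asIdeal : ℂ) ^ (-2 * s))⁻¹

/-- The `L`-function, as the Euler product over all finite places. -/
noncomputable def LSeries {K : Type} [Field K] [NumberField K]
    (W : HeightOneSpectrum (𝓞 K) → WeierstrassCurve (𝓞 K)) (s : ℂ) : ℂ :=
  ∏' v : HeightOneSpectrum (𝓞 K), localFactor W v s

/-- The point `3/2 + iτ` of the edge. -/
noncomputable def edge (τ : ℝ) : ℂ := 3 / 2 + τ * Complex.I

/-- The angle `|s - (3/2 + iτ)| ≤ C (Re s - 3/2)` in the half-plane `Re s > 3/2`. -/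
def angle (τ C : ℝ) : Set ℂ :=
  {s : ℂ | 3 / 2 < s.re ∧ ‖s - edge τ‖ ≤ C * (s.re - 3 / 2)}

/-- The mean of `|l|^c` over the interval of length `h` with the centre `τ`. -/
noncomputable def mean (l : ℝ → ℂ) (c τ h : ℝ) : ℝ :=
  (∫ u in (τ - h / 2)..(τ + h / 2), ‖l u‖ ^ c) / h

lemma factor_eq {K : Type} [Field K] [NumberField K]
    (W : HeightOneSpectrum (𝓞 K) → WeierstrassCurve (𝓞 K)) (v : HeightOneSpectrum (𝓞 K)) (s : ℂ) :
    localFactor W v s = Pool.Agent.TH339.MP.elf W v s := by
  have h1 : (Nat.card {xy : (𝓞 K ⧸ v.asIdeal) × (𝓞 K ⧸ v.asIdeal) //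
          ((W v).map (Ideal.Quotient.mk v.asIdeal)).toAffine.Equation xy.1 xy.2}) =
      Pool.Agent.TH339.MP.affc ((W v).map (Ideal.Quotient.mk v.asIdeal)) := by
    unfold Pool.Agent.TH339.MP.affc
    refine Nat.card_congr (Equiv.subtypeEquivRight fun q => ?_)
    exact WeierstrassCurve.Affine.equation_iff ..
  unfold localFactor Pool.Agent.TH339.MP.elf Pool.Agent.TH339.MP.lfac Pool.Agent.TH339.MP.av
    Pool.Agent.TH339.MP.nm
  rw [h1]
  push_cast
  rfl

/-- two-sided bounds give the same exponent -/
lemma exponent {F G : ℝ → ℝ} {c A m : ℝ} (hc : c ≠ 0) (hF : ∀ h, 0 < h → h ≤ 1 / 2 → 0 < F h)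
    (hG : ∀ h, 0 < h → h ≤ 1 / 2 → A⁻¹ * F h ^ c ≤ G h ∧ G h ≤ A * F h ^ c) (hA : 0 < A) :
    Tendsto (fun h => Real.log (F h) / Real.log h) (𝓝[>] 0) (𝓝 m) ↔
      Tendsto (fun h => Real.log (G h) / (c * Real.log h)) (𝓝[>] 0) (𝓝 m) := by
  have hlog : Tendsto (fun h : ℝ => Real.log h) (𝓝[>] 0) atBot := Real.tendsto_log_nhdsGT_zero
  have hz : Tendsto (fun h : ℝ => (|Real.log A| / |c|) / |Real.log h|) (𝓝[>] 0) (𝓝 0) :=
    Tendsto.div_atTop tendsto_const_nhds (tendsto_abs_atBot_atTop.comp hlog)
  have hd : Tendsto (fun h => Real.log (G h) / (c * Real.log h) - Real.log (F h) / Real.log h)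
      (𝓝[>] 0) (𝓝 0) := by
    refine squeeze_zero_norm' ?_ hz
    have h1 : ∀ᶠ h : ℝ in 𝓝[>] 0, h ≤ 1 / 2 :=
      (eventually_le_nhds (by norm_num : (0 : ℝ) < 1 / 2)).filter_mono nhdsWithin_le_nhds
    filter_upwards [self_mem_nhdsWithin, h1] with h hh hh2
    have hh0 : 0 < h := hh
    have hl : Real.log h ≠ 0 := (Real.log_neg hh0 (by linarith)).ne
    obtain ⟨g1, g2⟩ := hG h hh0 hh2
    have hF0 := hF h hh0 hh2
    have hFc : 0 < F h ^ c := Real.rpow_pos_of_pos hF0 c
    have hG0 : 0 < G h := lt_of_lt_of_le (by positivity) g1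
    have e1 : Real.log (G h) / (c * Real.log h) - Real.log (F h) / Real.log h =
        (Real.log (G h) - c * Real.log (F h)) / (c * Real.log h) := by
      field_simp
    have g3 : Real.log (G h) ≤ Real.log A + c * Real.log (F h) := by
      rw [← Real.log_rpow hF0, ← Real.log_mul hA.ne' hFc.ne']
      exact Real.log_le_log hG0 g2
    have g4 : -Real.log A + c * Real.log (F h) ≤ Real.log (G h) := by
      rw [← Real.log_rpow hF0, ← Real.log_inv, ← Real.log_mul (inv_ne_zero hA.ne') hFc.ne']
      exact Real.log_le_log (by positivity) g1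
    have g5 : |Real.log (G h) - c * Real.log (F h)| ≤ |Real.log A| := by
      rw [abs_le]
      have := le_abs_self (Real.log A)
      constructor <;> linarith
    rw [e1, Real.norm_eq_abs, abs_div, abs_mul, div_div]
    exact div_le_div_of_nonneg_right g5 (by positivity)
  constructor
  · intro h
    have := h.add hd
    rw [add_zero] at this
    exact this.congr fun x => by ring
  · intro h
    have := h.sub hd
    rw [sub_zero] at this
    exact this.congr fun x => by ring

/-- **Boundary values and the size near the edge.**  Let `E` be an elliptic curve over a number field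
`K` of degree `d`.  There is a function `l` on the real line such that

1. for all real `τ` outside a set of Hausdorff dimension `0`, `l(τ) ≠ 0` and `L(E/K, s)` tends to `l(τ)`
  as `s` tends to `3/2 + iτ` in any angle in the half-plane `Re s > 3/2`;

and for all real `c` with `2 d |c| < 1` and all `τ`, with `A = 576000 / (1 - 2 d |c|)`,

2. `|l|^c` is integrable over bounded intervals, and its mean over the interval of length `h ≤ 1/2` with
  the centre `τ` lies between `A⁻¹ |L(E/K, 3/2 + h + iτ)|^c` and `A |L(E/K, 3/2 + h + iτ)|^c`;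
3. the product of the means of `|l|^c` and `|l|^{-c}` over any interval of length `≤ 1/2` is at most
  `A²` (`|l|^c` is a Muckenhoupt `A_2` weight);
4. if `c ≠ 0`, then `log |L(E/K, 3/2 + h + iτ)| / log h` tends to a number `m` for `h → 0` if and only if
  the logarithm of the mean of `|l|^c` over the interval of length `h` with the centre `τ`, divided by
  `c log h`, tends to `m`. -/
theorem result (K : Type) [Field K] [NumberField K] (E : WeierstrassCurve K) [E.IsElliptic]
    (W : HeightOneSpectrum (𝓞 K) → WeierstrassCurve (𝓞 K)) (_ : MinimalModels E W) :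
    ∃ l : ℝ → ℂ,
      (∃ N : Set ℝ, dimH N = 0 ∧ ∀ τ : ℝ, τ ∉ N → l τ ≠ 0 ∧ ∀ C : ℝ,
        Tendsto (LSeries W) (𝓝[angle τ C] (edge τ)) (𝓝 (l τ))) ∧
      ∀ c : ℝ, 2 * Module.finrank ℚ K * |c| < 1 → ∀ τ : ℝ,
        (∀ h : ℝ, 0 < h → h ≤ 1 / 2 →
          IntegrableOn (fun u => ‖l u‖ ^ c) (Set.Icc (τ - h / 2) (τ + h / 2)) ∧
          (576000 / (1 - 2 * Module.finrank ℚ K * |c|))⁻¹ * ‖LSeries W (edge τ + h)‖ ^ c ≤
            mean l c τ h ∧
          mean l c τ h ≤
            576000 / (1 - 2 * Module.finrank ℚ K * |c|) * ‖LSeries W (edge τ + h)‖ ^ c ∧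
          mean l c τ h * mean l (-c) τ h ≤
            (576000 / (1 - 2 * Module.finrank ℚ K * |c|)) ^ 2) ∧
        (c ≠ 0 → ∀ m : ℝ,
          (Tendsto (fun h : ℝ => Real.log ‖LSeries W (edge τ + h)‖ / Real.log h) (𝓝[>] 0) (𝓝 m) ↔
            Tendsto (fun h : ℝ => Real.log (mean l c τ h) / (c * Real.log h)) (𝓝[>] 0)
              (𝓝 m))) := by
  have hL : ∀ s, LSeries W s = ∏' v, Pool.Agent.TH339.MP.elf W v s :=
    fun s => tprod_congr fun v => factor_eq W v s
  have hLf : LSeries W = fun s => ∏' v, Pool.Agent.TH339.MP.elf W v s := funext hL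
  obtain ⟨l, -, ⟨N, hN, h1⟩, h2⟩ := Pool.Agent.Q9.EL.ec_main W
  have hpos : ∀ τ h : ℝ, 0 < h → 0 < ‖LSeries W (edge τ + h)‖ := by
    intro τ h hh
    rw [hL]
    exact Pool.Agent.Q9.EL.L_pos W τ hh
  have main : ∀ c : ℝ, 2 * Module.finrank ℚ K * |c| < 1 → ∀ τ h : ℝ, 0 < h → h ≤ 1 / 2 →
      IntegrableOn (fun u => ‖l u‖ ^ c) (Set.Icc (τ - h / 2) (τ + h / 2)) ∧
      (576000 / (1 - 2 * Module.finrank ℚ K * |c|))⁻¹ * ‖LSeries W (edge τ + h)‖ ^ c ≤
        mean l c τ h ∧
      mean l c τ h ≤
        576000 / (1 - 2 * Module.finrank ℚ K * |c|) * ‖LSeries W (edge τ + h)‖ ^ c := by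
    intro c hc τ h hh hh2
    obtain ⟨i0, i1, i2⟩ := h2 c hc h hh hh2 τ
    have e1 : Pool.Agent.Q9.EL.edg τ = edge τ := rfl
    rw [e1, ← hL] at i1 i2
    refine ⟨i0, ?_, ?_⟩
    · unfold mean
      rw [le_div_iff₀ hh, inv_div]
      refine le_trans (le_of_eq ?_) i1
      ring
    · unfold mean
      rw [div_le_iff₀ hh]
      refine i2.trans (le_of_eq ?_)
      ring
  refine ⟨l, ⟨N, hN, fun τ hτ => ⟨(h1 τ hτ).1, fun C => ?_⟩⟩, fun c hc τ => ⟨?_, ?_⟩⟩
  · rw [hLf]
    exact (h1 τ hτ).2 C
  · intro h hh hh2
    obtain ⟨i0, i1, i2⟩ := main c hc τ h hh hh2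
    have hcm : 2 * Module.finrank ℚ K * |(-c)| < 1 := by rwa [abs_neg]
    obtain ⟨-, j1, j2⟩ := main (-c) hcm τ h hh hh2
    refine ⟨i0, i1, i2, ?_⟩
    have hD : 0 < 1 - 2 * (Module.finrank ℚ K : ℝ) * |c| := by linarith
    have hp := hpos τ h hh
    rw [abs_neg] at j1 j2
    have k1 : 0 ≤ mean l (-c) τ h := le_trans (by positivity) j1
    calc mean l c τ h * mean l (-c) τ h ≤
          (576000 / (1 - 2 * Module.finrank ℚ K * |c|) * ‖LSeries W (edge τ + h)‖ ^ c) *
          (576000 / (1 - 2 * Module.finrank ℚ K * |c|) * ‖LSeries W (edge τ + h)‖ ^ (-c)) :=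
        mul_le_mul i2 j2 k1 (by positivity)
      _ = _ := by
        rw [Real.rpow_neg hp.le]
        have h3 : ‖LSeries W (edge τ + h)‖ ^ c ≠ 0 := (Real.rpow_pos_of_pos hp c).ne'
        field_simp
  · intro hc0 m
    have hD : 0 < 1 - 2 * (Module.finrank ℚ K : ℝ) * |c| := by linarith
    exact exponent (F := fun h : ℝ => ‖LSeries W (edge τ + h)‖) (G := fun h => mean l c τ h)
      (A := 576000 / (1 - 2 * Module.finrank ℚ K * |c|)) hc0 (fun h hh _ => hpos τ h hh)
      (fun h hh hh2 => ⟨(main c hc τ h hh hh2).2.1, (main c hc τ h hh hh2).2.2⟩) (by positivity)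

end Pool.Agent.Results.MP_bf61d2_nt.EdgeHarnack
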