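import Pool.Agent.Q9.EL.ECS

/-!
# When the L-series of elliptic curves take all values on the edge of convergence

`E_1, …, E_m` are elliptic curves over number fields `K_1, …, K_m`, and `c_1, …, c_m` are functions with
`|c_j| ≤ 1` (for example `1` or Dirichlet characters).  The Euler products `L(E_j ⊗ c_j, s)` converge
for `Re s > 3/2`; a continuation to any point of the edge `Re s = 3/2` is not known in general, and
nothing of this kind is assumed.  Let `edgeLog_j(t)` be the boundary value of `log L(E_j ⊗ c_j, s)` at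
`3/2 + it`, which exists outside a set of Hausdorff dimension zero.

The following are equivalent: the logarithms have boundary values jointly near every point of `ℂ^m`, on
a set of `t` of positive lower density in all long windows; their values in `Re s > 3/2` are dense in
`ℂ^m`; no linear combination of the logarithms is bounded in `Re s > 3/2`; and the series
`∑_p |∑_j y_j c_j(p) A_j(p)| p^{-3/2}` diverges for all `y ≠ 0`, where `A_j(p)` is the sum of the traces
of Frobenius at the places of `K_j` of norm `p`.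
-/

set_option autoImplicit false

namespace Pool.Agent.Results.MP_bf61d2_nt.EdgeJointDensity

open NumberField IsDedekindDomain MeasureTheory Filter Topology

section

variable {K : Type} [Field K] [NumberField K]

/-- `W v` is, for every finite place `v`, an integral model of `E` with discriminant minimal at
`v`. -/
def MinimalModels (E : WeierstrassCurve K)
    (W : HeightOneSpectrum (𝓞 K) → WeierstrassCurve (𝓞 K)) : Prop :=
  ∀ v : HeightOneSpectrum (𝓞 K),
    (∃ C : WeierstrassCurve.VariableChange K, C • (W v).map (algebraMap (𝓞 K) K) = E) ∧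
    ∀ W' : WeierstrassCurve (𝓞 K),
      (∃ C : WeierstrassCurve.VariableChange K, C • W'.map (algebraMap (𝓞 K) K) = E) →
      ∀ n : ℕ, (W v).Δ ∈ v.asIdeal ^ n → W'.Δ ∈ v.asIdeal ^ n

/-- `a_v`, which is `Nv` minus the number of affine points of the reduction of `W v`; for bad reduction
this is `1`, `-1`, `0` in the split multiplicative, non-split multiplicative, additive case. -/
noncomputable def trace (W : HeightOneSpectrum (𝓞 K) → WeierstrassCurve (𝓞 K))
    (v : HeightOneSpectrum (𝓞 K)) : ℂ :=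
  (Ideal.absNorm v.asIdeal : ℂ)
    - (Nat.card {xy : (𝓞 K ⧸ v.asIdeal) × (𝓞 K ⧸ v.asIdeal) //
        ((W v).map (Ideal.Quotient.mk v.asIdeal)).toAffine.Equation xy.1 xy.2} : ℂ)

open Classical in
/-- The inverse of the Euler factor at `v` of the twist by the function `c`: with
`x = c(Nv) Nv^{-s}` it is `1 - a_v x + Nv x²` if the reduction at `v` is good and `1 - a_v x` if it is
bad.  For `c = 1` it is the Euler factor of `L(E, s)`. -/
noncomputable def denominator (c : ℕ → ℂ) (W : HeightOneSpectrum (𝓞 K) → WeierstrassCurve (𝓞 K))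
    (v : HeightOneSpectrum (𝓞 K)) (s : ℂ) : ℂ :=
  1 - trace W v * (c (Ideal.absNorm v.asIdeal) * (Ideal.absNorm v.asIdeal : ℂ) ^ (-s)) +
    (if (W v).Δ ∈ v.asIdeal then 0 else (Ideal.absNorm v.asIdeal : ℂ)) *
      (c (Ideal.absNorm v.asIdeal) * (Ideal.absNorm v.asIdeal : ℂ) ^ (-s)) ^ 2

/-- The `L`-series of `E`, twisted by `c`, as the Euler product over all finite places. -/
noncomputable def LSeries (c : ℕ → ℂ) (W : HeightOneSpectrum (𝓞 K) → WeierstrassCurve (𝓞 K))
    (s : ℂ) : ℂ :=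
  ∏' v : HeightOneSpectrum (𝓞 K), (denominator c W v s)⁻¹

/-- Its logarithm for `Re s > 3/2`, the sum of the principal logarithms of the Euler factors. -/
noncomputable def logL (c : ℕ → ℂ) (W : HeightOneSpectrum (𝓞 K) → WeierstrassCurve (𝓞 K))
    (s : ℂ) : ℂ :=
  ∑' v : HeightOneSpectrum (𝓞 K), -Complex.log (denominator c W v s)

/-- The point `3/2 + iτ` of the edge. -/
noncomputable def edge (τ : ℝ) : ℂ := 3 / 2 + τ * Complex.I

/-- The angle `|s - (3/2 + iτ)| ≤ C (Re s - 3/2)` in the half-plane `Re s > 3/2`. -/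
def angle (τ C : ℝ) : Set ℂ :=
  {s : ℂ | 3 / 2 < s.re ∧ ‖s - edge τ‖ ≤ C * (s.re - 3 / 2)}

/-- The boundary value of the logarithm at `3/2 + iτ`: its limit along the horizontal line. -/
noncomputable def edgeLog (c : ℕ → ℂ) (W : HeightOneSpectrum (𝓞 K) → WeierstrassCurve (𝓞 K))
    (τ : ℝ) : ℂ :=
  limUnder (𝓝[>] (0 : ℝ)) fun h : ℝ => logL c W (edge τ + h)

/-- `A(p)`: the sum of `a_v` over the (finitely many) places `v` of `K` of norm `p`. -/
noncomputable def primeTrace (W : HeightOneSpectrum (𝓞 K) → WeierstrassCurve (𝓞 K)) (p : ℕ) : ℂ :=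
  ∑ᶠ (v : HeightOneSpectrum (𝓞 K)) (_ : Ideal.absNorm v.asIdeal = p), trace W v

lemma trace_eq (W : HeightOneSpectrum (𝓞 K) → WeierstrassCurve (𝓞 K))
    (v : HeightOneSpectrum (𝓞 K)) :
    trace W v = ((Pool.Agent.TH339.MP.av W v : ℝ) : ℂ) := by
  have h1 : (Nat.card {xy : (𝓞 K ⧸ v.asIdeal) × (𝓞 K ⧸ v.asIdeal) //
          ((W v).map (Ideal.Quotient.mk v.asIdeal)).toAffine.Equation xy.1 xy.2}) =
      Pool.Agent.TH339.MP.affc ((W v).map (Ideal.Quotient.mk v.asIdeal)) := by
    unfold Pool.Agent.TH339.MP.affc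
    refine Nat.card_congr (Equiv.subtypeEquivRight fun q => ?_)
    exact WeierstrassCurve.Affine.equation_iff ..
  unfold trace Pool.Agent.TH339.MP.av Pool.Agent.TH339.MP.nm
  rw [h1]
  push_cast
  ring

lemma denominator_eq (c : ℕ → ℂ) (W : HeightOneSpectrum (𝓞 K) → WeierstrassCurve (𝓞 K))
    (v : HeightOneSpectrum (𝓞 K)) (s : ℂ) :
    denominator c W v s = 1 - Pool.Agent.Q9.EL.yv c W v s := by
  unfold denominator
  rw [trace_eq]
  unfold Pool.Agent.Q9.EL.yv Pool.Agent.TH339.MP.nm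
  ring

lemma logL_eq (c : ℕ → ℂ) (W : HeightOneSpectrum (𝓞 K) → WeierstrassCurve (𝓞 K)) :
    logL c W = Pool.Agent.Q9.EL.lE c W := by
  funext s
  unfold logL Pool.Agent.Q9.EL.lE Pool.Agent.Q9.EL.lec
  exact tsum_congr fun v => by rw [denominator_eq]

lemma edgeLog_eq (c : ℕ → ℂ) (W : HeightOneSpectrum (𝓞 K) → WeierstrassCurve (𝓞 K)) (τ : ℝ) :
    edgeLog c W τ = Pool.Agent.Q9.EL.bE c W τ := by
  unfold edgeLog Pool.Agent.Q9.EL.bE
  rw [logL_eq]
  rfl

lemma primeTrace_eq (W : HeightOneSpectrum (𝓞 K) → WeierstrassCurve (𝓞 K)) (p : ℕ) :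
    primeTrace W p = Pool.Agent.Q9.EL.AE W p := by
  unfold primeTrace Pool.Agent.Q9.EL.AE
  exact finsum_congr fun v => by rw [trace_eq]; rfl

end

/-- **Joint density on the edge.**  Let `E_j` be an elliptic curve over a number field `K_j` and `c_j` a
function with `|c_j| ≤ 1`, for `j < m`.

First, `logL_j` is a logarithm of the Euler product for `Re s > 3/2`, and for all real `τ` outside a set
of Hausdorff dimension zero it tends to `edgeLog_j τ` in every angle at `3/2 + iτ`.

Second, the following are equivalent: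
* for all `y ≠ 0` in `ℂ^m` the sum of `|∑_j y_j c_j(p) A_j(p)| p^{-3/2}` over all primes `p` diverges;
* for all `w` in `ℂ^m` and `ε > 0` there are `T₀` and `δ > 0` such that for all `T ≥ T₀` and all real
  `a` the `t` in `[a, a + T]` with `|edgeLog_j t - w_j| < ε` for all `j` have measure at least `δ T`;
* the points `(logL_j s)_j`, `Re s > 3/2`, are dense in `ℂ^m`;
* for all `y ≠ 0` in `ℂ^m` the function `∑_j y_j logL_j` is unbounded in `Re s > 3/2`. -/
theorem result {m : ℕ} (K : Fin m → Type) [∀ j, Field (K j)] [∀ j, NumberField (K j)]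
    (E : ∀ j, WeierstrassCurve (K j)) [∀ j, (E j).IsElliptic]
    (W : ∀ j, HeightOneSpectrum (𝓞 (K j)) → WeierstrassCurve (𝓞 (K j)))
    (_ : ∀ j, MinimalModels (E j) (W j))
    (c : Fin m → ℕ → ℂ) (hc : ∀ j n, ‖c j n‖ ≤ 1) :
    (∀ j, (∀ s : ℂ, 3 / 2 < s.re → LSeries (c j) (W j) s = Complex.exp (logL (c j) (W j) s)) ∧
      dimH {τ : ℝ | ¬ ∀ C : ℝ, Tendsto (logL (c j) (W j)) (𝓝[angle τ C] (edge τ))
        (𝓝 (edgeLog (c j) (W j) τ))} = 0) ∧
    List.TFAE [
      ∀ y : Fin m → ℂ, y ≠ 0 → ¬ Summable fun p : Nat.Primes =>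
        ‖∑ j, y j * (c j p * primeTrace (W j) p)‖ / ((p : ℕ) : ℝ) ^ (3 / 2 : ℝ),
      ∀ w : Fin m → ℂ, ∀ ε : ℝ, 0 < ε → ∃ T₀ δ : ℝ, 1 ≤ T₀ ∧ 0 < δ ∧
        ∀ T : ℝ, T₀ ≤ T → ∀ a : ℝ, ENNReal.ofReal (δ * T) ≤
          volume {t : ℝ | t ∈ Set.Icc a (a + T) ∧ ∀ j, ‖edgeLog (c j) (W j) t - w j‖ < ε},
      Dense {w : Fin m → ℂ | ∃ s : ℂ, 3 / 2 < s.re ∧ w = fun j => logL (c j) (W j) s},
      ∀ y : Fin m → ℂ, y ≠ 0 →
        ¬ ∃ B : ℝ, ∀ s : ℂ, 3 / 2 < s.re → ‖∑ j, y j * logL (c j) (W j) s‖ ≤ B] := by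
  refine ⟨fun j => ?_, ?_⟩
  · obtain ⟨b, hb, h1, h2, h3⟩ := Pool.Agent.Q9.EL.bE_main (hc j) (W j)
    refine ⟨fun s hs => ?_, ?_⟩
    · have h4 := (Pool.Agent.Q9.EL.exp_lE (hc j) (W j) hs).tprod_eq
      rw [logL_eq, ← h4]
      unfold LSeries
      exact tprod_congr fun v => by rw [denominator_eq]
    · simp_rw [edgeLog_eq, logL_eq]
      exact h3
  · have h := Pool.Agent.Q9.EL.tfae_ec (W := W) hc
    simp only [edgeLog_eq, logL_eq, primeTrace_eq]
    exact h

end Pool.Agent.Results.MP_bf61d2_nt.EdgeJointDensity
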