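import Pool.Agent.Q5.BP.Hardy2
import Pool.Agent.Results.MP_1a91b9_nt.MeanSquareLeading

/-!
# Analytic continuation of `L(E/K, s)` from the products of Birch and Swinnerton-Dyer: the Hardy space criterion

Let `K` be a number field and `E : y² = x³ + a x + b` an elliptic curve with `a, b ∈ 𝓞_K`. NOTHING is assumed on
the `L`-series `L(s) = ∏_{v ∤ 6Δ} (1 - a_v Nv^{-s} + Nv^{1-2s})⁻¹` outside of its half plane of absolute convergence
`Re s > 3/2`. Let

`P*(y) = exp (- ∑_{Nv^k ≤ y} (α_v^k + β_v^k)/(k Nv^k))`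

be the product of Birch and Swinnerton-Dyer with the prime powers and the SHARP cut-off, a finite expression in the
numbers of points of `E` over finite fields. Then for all real `ρ` and all `A > 0` the following are EQUIVALENT:

* `∫_e^∞ (log (A P*(y) / (e^γ log y)^ρ))² dy/y < ∞`;
* `L(s)` has an analytic continuation to `Re s > 1` of the form `L(s) = A (s - 1)^ρ exp ((s - 1) H(s))` with a
  function `H` in the Hardy space `H²` of the half plane `Re s > 1`; in particular the continuation has no zeros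
  there.

In this case Parseval's formula holds on every vertical line,

`∫ |H(1 + x + it)|² dt = 2π ∫_1^∞ (log (A P*(y) / (e^γ log y)^ρ))² y^{-2x} dy/y`  (`x > 0`),

and `L(1 + x) / x^ρ → A` for `x → 0`. So the analytic continuation to the half plane `Re s > 1`, which for a general
number field `K` is not known, its zero-freeness (the Riemann hypothesis for `E/K`), the order `ρ` and the leading
coefficient `A` at `s = 1` in the radial sense, and the quadratic bound for `(log L(s) - ρ log (s - 1) - log A)/(s - 1)`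
up to the line `Re s = 1`, all together are one arithmetic statement. If `L(s)` has a continuation of polynomial growth
across the line `Re s = 1`, the quadratic bound is automatic (`MeanSquareLeading` of problem `MP_1a91b9_nt`).

The proof (`Pool.Agent.Q5.BP.Hardy`) uses the theorems of Plancherel and Paley-Wiener (`Pool.Agent.TH270.MS.PW`), the
Laplace transform of the logarithm, and the identity theorem.
-/

set_option autoImplicit false

namespace Pool.Agent.Results.MP_bf61d2_nt.HardyCriterion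

open Filter Topology Set Complex NumberField IsDedekindDomain MeasureTheory
open Pool.Agent.Results.MP_ae0bd0_nt.MeanProduct (Good norm points trace factor powerSum productStar)
open Pool.Agent.Results.MP_1a91b9_nt.MeanSquareLeading (devStar)

variable {K : Type} [Field K] [NumberField K]

/-- `H` belongs to the Hardy space `H²` of the half plane `Re s > 1`: it is analytic there, bounded on the smaller
half planes, and the integrals of `|H|²` over the vertical lines are bounded. -/
structure Hardy (H : ℂ → ℂ) : Prop where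
  analytic : ∀ s : ℂ, 1 < s.re → DifferentiableAt ℂ H s
  bounded : ∀ x : ℝ, 1 < x → ∃ B : ℝ, ∀ s : ℂ, x ≤ s.re → ‖H s‖ ≤ B
  square : ∃ M : ℝ, ∀ x : ℝ, 1 < x → ∫⁻ t : ℝ, ‖H (x + t * I)‖ₑ ^ 2 ≤ ENNReal.ofReal M

/-- For `Re s > 3/2` the `L`-series `∏_v factor v` of `E/K` is `A (s - 1)^ρ exp ((s - 1) H(s))`. -/
def IsContinuation (a b : 𝓞 K) (ρ A : ℝ) (H : ℂ → ℂ) : Prop :=
  ∀ s : ℂ, (3 : ℝ) / 2 < s.re →
    HasProd (fun v : {v : HeightOneSpectrum (𝓞 K) // Good a b v} => factor a b v.1 s)
      (A * (s - 1) ^ (ρ : ℂ) * exp ((s - 1) * H s))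

/-- `∫_e^∞ (log (A P*(y) / (e^γ log y)^ρ))² dy/y < ∞`. -/
def SquareIntegrable (a b : 𝓞 K) (ρ A : ℝ) : Prop :=
  IntegrableOn (fun y : ℝ => devStar a b ρ A y ^ 2 / y) (Ioi (Real.exp 1))

/-- Parseval's formula on the lines `Re s = 1 + x`. -/
def Parseval (a b : 𝓞 K) (ρ A : ℝ) (H : ℂ → ℂ) : Prop :=
  ∀ x : ℝ, 0 < x → ∫⁻ t : ℝ, ‖H (1 + x + t * I)‖ₑ ^ 2 = ENNReal.ofReal (2 * Real.pi) *
    ∫⁻ y in Ioi (1 : ℝ), ENNReal.ofReal (devStar a b ρ A y ^ 2 * y ^ (-(2 * x)) / y)

/-! ### translation -/

open Pool.Agent.Results.MP_ae0bd0_nt.MeanProduct (NN factor_eq real_sums log_star star_pos)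
open Pool.Agent.TH942.ES (alV curve_sys zv xv LE Sys)
open Pool.Agent.TH270.MS (DvR)
open Pool.Agent.Q5.BP (H2 sys_hardy)

theorem dev_eq' (a b : 𝓞 K) {ρ A y : ℝ} (hA : 0 < A) (hy : 1 < y) :
    devStar a b ρ A y = -DvR (NN a b) (alV a b) ρ A y := by
  have hl : 0 < Real.log y := Real.log_pos hy
  have h1 : 0 < Real.exp Real.eulerMascheroniConstant * Real.log y :=
    mul_pos (Real.exp_pos _) hl
  have h2 := Real.rpow_pos_of_pos h1 ρ
  unfold devStar
  rw [Real.log_div (mul_pos hA (star_pos a b y)).ne' h2.ne', Real.log_mul hA.ne'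
    (star_pos a b y).ne', log_star, Real.log_rpow h1, Real.log_mul (Real.exp_pos _).ne' hl.ne',
    Real.log_exp]
  unfold DvR
  ring

theorem prod_iff (a b : 𝓞 K) {s : ℂ} (hs : 1 / 2 < s.re) (X : ℂ) :
    HasProd (fun v : {v : HeightOneSpectrum (𝓞 K) // Good a b v} => factor a b v.1 (1 + s)) X ↔
      LE (NN a b) (alV a b) s = X := by
  have E := curve_sys a b
  have h3 : (fun v : {v : HeightOneSpectrum (𝓞 K) // Good a b v} => factor a b v.1 (1 + s)) =
      fun v => ∏ i, (1 - zv (NN a b) (alV a b) v i * xv (NN a b) v s)⁻¹ := by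
    funext v
    have h4 := factor_eq a b v (1 + s)
    rwa [add_sub_cancel_left] at h4
  rw [h3]
  have h5 := E.hasProd hs
  constructor
  · intro h
    exact h.tprod_eq
  · intro h
    have h6 := h5.multipliable.hasProd
    have h7 : ∏' v, ∏ i, (1 - zv (NN a b) (alV a b) v i * xv (NN a b) v s)⁻¹ = X := h
    rwa [h7] at h6

theorem cont_iff (a b : 𝓞 K) (ρ A : ℝ) (H : ℂ → ℂ) :
    IsContinuation a b ρ A H ↔ ∀ s : ℂ, 1 / 2 < s.re →
      LE (NN a b) (alV a b) s = A * s ^ (ρ : ℂ) * exp (s * H (1 + s)) := by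
  constructor
  · intro h s hs
    have h1 := h (1 + s) (by
      rw [Complex.add_re, Complex.one_re]
      linarith)
    rw [prod_iff a b hs, add_sub_cancel_left] at h1
    exact h1
  · intro h s hs
    have hs' : 1 / 2 < (s - 1).re := by
      rw [Complex.sub_re, Complex.one_re]
      linarith
    have h1 := h (s - 1) hs'
    rw [← prod_iff a b hs', add_sub_cancel] at h1
    exact h1

theorem hardy_iff (H : ℂ → ℂ) : Hardy H ↔ H2 (fun s => H (1 + s)) := by
  constructor
  · rintro ⟨h1, h2, M, h3⟩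
    refine ⟨fun s hs => ?_, fun δ hδ => ?_, M, fun x hx => ?_⟩
    · have h4 := h1 (1 + s) (by simpa using hs)
      exact DifferentiableAt.comp s (f := fun s : ℂ => 1 + s) h4 (by fun_prop)
    · obtain ⟨B, hB⟩ := h2 (1 + δ) (by linarith)
      exact ⟨B, fun s hs => hB (1 + s) (by simpa using hs)⟩
    · have h4 := h3 (1 + x) (by linarith)
      refine le_trans (le_of_eq (lintegral_congr fun t => ?_)) h4
      push_cast
      rw [← add_assoc]
  · rintro ⟨h1, h2, M, h3⟩
    refine ⟨fun s hs => ?_, fun x hx => ?_, M, fun x hx => ?_⟩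
    · have h4 := h1 (s - 1) (by simpa using hs)
      have h5 : H = (fun s => H (1 + s)) ∘ fun s => s - 1 := by
        funext z
        simp
      rw [h5]
      exact DifferentiableAt.comp s (f := fun s : ℂ => s - 1) h4 (by fun_prop)
    · obtain ⟨B, hB⟩ := h2 (x - 1) (by linarith)
      refine ⟨B, fun s hs => ?_⟩
      have h4 := hB (s - 1) (by
        rw [Complex.sub_re, Complex.one_re]
        linarith)
      rwa [add_sub_cancel] at h4
    · have h4 := h3 (x - 1) (by linarith)
      refine le_trans (le_of_eq (lintegral_congr fun t => ?_)) h4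
      congr 3
      push_cast
      ring

theorem shift_exists (P : (ℂ → ℂ) → Prop) :
    (∃ H : ℂ → ℂ, P (fun s => H (1 + s))) ↔ ∃ H : ℂ → ℂ, P H := by
  constructor
  · rintro ⟨H, h⟩
    exact ⟨_, h⟩
  · rintro ⟨H, h⟩
    refine ⟨fun s => H (s - 1), ?_⟩
    have h1 : (fun s : ℂ => (fun s => H (s - 1)) (1 + s)) = H := by
      funext s
      simp
    rw [h1]
    exact h

theorem int_iff (a b : 𝓞 K) (ρ : ℝ) {A : ℝ} (hA : 0 < A) : SquareIntegrable a b ρ A ↔
    IntegrableOn (fun Y : ℝ => DvR (NN a b) (alV a b) ρ A Y ^ 2 / Y) (Ioi (Real.exp 1)) := by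
  refine integrableOn_congr_fun (fun y hy => ?_) measurableSet_Ioi
  have hy' : Real.exp 1 < y := hy
  have hy1 : 1 < y := by linarith [Real.add_one_le_exp 1]
  rw [dev_eq' a b hA hy1, neg_sq]

/-- **The Hardy space criterion for the continuation of `L(E/K, s)`.** -/
theorem result (K : Type) [Field K] [NumberField K] (a b : 𝓞 K)
    (_hΔ : 4 * a ^ 3 + 27 * b ^ 2 ≠ 0) (ρ A : ℝ) (hA : 0 < A) :
    (SquareIntegrable a b ρ A ↔ ∃ H : ℂ → ℂ, Hardy H ∧ IsContinuation a b ρ A H) ∧
    (SquareIntegrable a b ρ A → ∃ H : ℂ → ℂ, Hardy H ∧ IsContinuation a b ρ A H ∧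
      Parseval a b ρ A H ∧
      Tendsto (fun x : ℝ => (A : ℂ) * exp (x * H (1 + x))) (𝓝[>] 0) (𝓝 (A : ℂ))) := by
  obtain ⟨h1, h2⟩ := sys_hardy (curve_sys a b) (real_sums a b) ρ hA
  rw [← int_iff a b ρ hA] at h1 h2
  refine ⟨?_, fun h => ?_⟩
  · rw [h1, ← shift_exists]
    exact exists_congr fun H => and_congr (hardy_iff H).symm (cont_iff a b ρ A H).symm
  · obtain ⟨H, hH1, hH2, hH3, hH4⟩ := h2 h
    refine ⟨fun s => H (s - 1), ?_, ?_, ?_, ?_⟩
    · rw [hardy_iff]
      simpa using hH1
    · rw [cont_iff]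
      simpa using hH2
    · intro x hx
      have h5 := hH3 x hx
      have h6 : ∫⁻ y in Ioi (1 : ℝ), ENNReal.ofReal (devStar a b ρ A y ^ 2 * y ^ (-(2 * x)) / y) =
          ∫⁻ Y in Ioi (1 : ℝ), ENNReal.ofReal
            (DvR (NN a b) (alV a b) ρ A Y ^ 2 * Y ^ (-(2 * x)) / Y) := by
        refine setLIntegral_congr_fun measurableSet_Ioi fun y hy => ?_
        rw [dev_eq' a b hA hy, neg_sq]
      rw [h6, ← h5]
      refine lintegral_congr fun t => ?_
      simp only
      congr 3
      ring
    · have h5 : Tendsto (fun x : ℝ => (A : ℂ) * exp ((x : ℂ) * H x)) (𝓝[>] 0)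
          (𝓝 ((A : ℂ) * exp 0)) :=
        ((Complex.continuous_exp.tendsto 0).comp hH4).const_mul _
      rw [Complex.exp_zero, mul_one] at h5
      refine h5.congr fun x => ?_
      simp

end Pool.Agent.Results.MP_bf61d2_nt.HardyCriterion
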