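import Pool.Agent.Y693.RF.ThmB

/-!
# Elliptic curves over random number fields: Euler products to the left of the edge `Re s = 3/2`

`F` is a number field of degree `d` and `f` a monic polynomial of degree `n` over `𝓞_F`.  For an integer
`t` let `L = F(θ)` be the extension of degree `n` of `F` generated by a root `θ` of `f + t` (for a given
`f` it exists for all but `O(X^{1/2} log X)` of the integers `|t| ≤ X`, by Hilbert's irreducibility
theorem; in general its Galois closure has group `S_n`).  For polynomials `P`, `Q` over `𝓞_F` of degree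
at most `2`, not both constant, let `E_θ` be the elliptic curve

`y² = x³ + P(θ) x + Q(θ)`

over the number field `L`.  It is not defined over `F`, and for `n > 2` nothing is known in general about
a continuation of `L(E_θ/L, s)` to a point with `Re s < 3/2`, or across any point of this line.

According to the conjecture of Hasse and Weil and the Riemann hypothesis, `L(E_θ/L, s)` continues to
`Re s > 1` without zeros and poles, and (up to powers of `log` of the conductor) this is equivalent to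
the stability of its Euler products: the product over the primes `y < q_w ≤ x` tends to `1` for
`y → ∞`, `x ≥ y`, like a negative power of `y`, as soon as `y` exceeds a power of `log` of the conductor.
The theorem says that this is true, with a power saving, for `x` up to a power of `X` and
for `Re s ≥ 1 + δ`, `|Im s| ≤ X^c`, for all but at most `X^{1-c}` of the fields with `|t| ≤ X`; and the
same for the twists `L(E_θ ⊗ γ, s)` by systems `γ` of `N` numbers of absolute value at most `1` for
the primes of `F`, base changed to `L` (Artin representations of `F`, or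
varieties over `F`), for any `X^c` triples `(P, Q, γ)` at the same time, uniformly in
all fields `F` of degree `d` and all `f`.  Near the edge, for `Re s ≥ 3/2 + A / log X`, the `L`-function
itself is given by the product over the primes `q_w ≤ (log X)^{1/c}` up to a factor arbitrarily close
to `1`.

The proof is from the starting modules `Pool.Agent.Y693.RF` (which had been used for the Tauberian Tate
conjecture, problem `MP_4589ac_nt`); this theorem had not been handed in.
-/

set_option autoImplicit false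

namespace Pool.Agent.Results.MP_bf61d2_nt.RandomNumberFields

open NumberField IsDedekindDomain

/-- `a_v(E) = q_v - #{(x, y) : y² = x³ + a x + b}`, where `x`, `y` are in the residue field of `v`.  It
is the trace of the Frobenius at `v` on `H¹` of `E : y² = x³ + a x + b`, if the reduction is good. -/
noncomputable def trace {K : Type} [Field K] [NumberField K] (a b : 𝓞 K)
    (v : HeightOneSpectrum (𝓞 K)) : ℂ :=
  (Ideal.absNorm v.asIdeal : ℂ) - Nat.card {P : (𝓞 K ⧸ v.asIdeal) × (𝓞 K ⧸ v.asIdeal) //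
    P.2 ^ 2 = P.1 ^ 3 + Ideal.Quotient.mk v.asIdeal a * P.1 + Ideal.Quotient.mk v.asIdeal b}

/-- The prime `v` does not divide `6 (4 a³ + 27 b²)`; then the curve `y² = x³ + a x + b` has good
reduction at `v`. -/
def IsGood {K : Type} [Field K] [NumberField K] (a b : 𝓞 K) (v : HeightOneSpectrum (𝓞 K)) : Prop :=
  6 * (4 * a ^ 3 + 27 * b ^ 2) ∉ v.asIdeal

/-- The Euler factor of `L(E ⊗ γ, s)` at `v`, for `E : y² = x³ + a x + b` and a system `γ` of `N` numbers
`γ_{v,1}, …, γ_{v,N}` for all primes `v`: the product over `j` of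
`(1 - a_v γ_{v,j} q_v^{-s} + γ_{v,j}² q_v^{1-2s})⁻¹`.  For `N = 1` and `γ = 1` it is the Euler factor
`(1 - a_v q_v^{-s} + q_v^{1-2s})⁻¹` of `L(E, s)`. -/
noncomputable def eulerFactor {K : Type} [Field K] [NumberField K] {N : ℕ} (a b : 𝓞 K)
    (γ : HeightOneSpectrum (𝓞 K) → Fin N → ℂ) (s : ℂ) (v : HeightOneSpectrum (𝓞 K)) : ℂ :=
  ∏ j, (1 - trace a b v * γ v j * (Ideal.absNorm v.asIdeal : ℂ) ^ (-s) +
    γ v j ^ 2 * (Ideal.absNorm v.asIdeal : ℂ) ^ (1 - 2 * s))⁻¹

/-- The product of the Euler factors of the good primes `v` with `q_v ≤ x`. -/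
noncomputable def partialProduct {K : Type} [Field K] [NumberField K] {N : ℕ} (a b : 𝓞 K)
    (γ : HeightOneSpectrum (𝓞 K) → Fin N → ℂ) (s : ℂ) (x : ℕ) : ℂ :=
  ∏ᶠ v ∈ {v : HeightOneSpectrum (𝓞 K) | IsGood a b v ∧ Ideal.absNorm v.asIdeal ≤ x},
    eulerFactor a b γ s v

/-- `L(E ⊗ γ, s)`: the product of the Euler factors of all good primes, convergent for
`Re s > 3/2`. -/
noncomputable def LFunction {K : Type} [Field K] [NumberField K] {N : ℕ} (a b : 𝓞 K)
    (γ : HeightOneSpectrum (𝓞 K) → Fin N → ℂ) (s : ℂ) : ℂ :=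
  ∏' v : {v : HeightOneSpectrum (𝓞 K) // IsGood a b v}, eulerFactor a b γ s v

/-- The base change to `L` of a system `γ` of numbers for the primes of `F`: at a prime `w` of `L` above
`v` it is `γ_v ^ f(w|v)`, where `f(w|v)` is the residue degree. -/
noncomputable def baseChange {F : Type} [Field F] [NumberField F] {N : ℕ} (L : Type) [Field L]
    [NumberField L] [Algebra F L] (γ : Ideal (𝓞 F) → Fin N → ℂ)
    (w : HeightOneSpectrum (𝓞 L)) (j : Fin N) : ℂ :=
  γ (w.asIdeal.comap (algebraMap (𝓞 F) (𝓞 L))) j ^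
    Ideal.inertiaDeg' (w.asIdeal.comap (algebraMap (𝓞 F) (𝓞 L))) w.asIdeal

/-- `L = F(θ)` is an extension of `F` of degree `deg f`, and `θ` is a root of `f + t`. -/
def Generates {F : Type} [Field F] [NumberField F] {L : Type} [Field L] [NumberField L] [Algebra F L]
    (f : Polynomial (𝓞 F)) (t : ℤ) (θ : 𝓞 L) : Prop :=
  Polynomial.aeval θ (f + Polynomial.C (t : 𝓞 F)) = 0 ∧ Module.finrank F L = f.natDegree ∧
    Algebra.adjoin F {(θ : L)} = ⊤

/-- All conjugates of `x` have absolute value at most `R`. -/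
def HeightLE {F : Type} [Field F] [NumberField F] (R : ℝ) (x : 𝓞 F) : Prop :=
  ∀ σ : F →+* ℂ, ‖σ (x : F)‖ ≤ R

/-- The Euler products of `L(E ⊗ γ, s)`, `E : y² = x³ + a x + b`, are stable in the half-plane
`Re s ≥ 1 + δ`: for `(log X)^{1/c} ≤ y ≤ x ≤ X^c` and `|Im s| ≤ X^c` the product over the good primes
with `y < q_w ≤ x` differs from `1` by at most `y^{-c}`. -/
def Stable {L : Type} [Field L] [NumberField L] {N : ℕ} (δ c : ℝ) (X : ℕ) (a b : 𝓞 L)
    (γ : HeightOneSpectrum (𝓞 L) → Fin N → ℂ) : Prop :=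
  ∀ s : ℂ, 1 + δ ≤ s.re → |s.im| ≤ (X : ℝ) ^ c → ∀ y x : ℕ, (Real.log X) ^ (1 / c) ≤ y → y ≤ x →
    (x : ℝ) ≤ (X : ℝ) ^ c →
      ‖partialProduct a b γ s x / partialProduct a b γ s y - 1‖ ≤ (y : ℝ) ^ (-c)

/-- Near the edge, for `Re s ≥ 3/2 + A / log X` and `|Im s| ≤ X^c`, the quotient of `L(E ⊗ γ, s)` and of
the product over the good primes with `q_w ≤ y` differs from `1` by at most `η`, for all
`y ≥ (log X)^{1/c}`. -/
def Approximated {L : Type} [Field L] [NumberField L] {N : ℕ} (η A c : ℝ) (X : ℕ) (a b : 𝓞 L)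
    (γ : HeightOneSpectrum (𝓞 L) → Fin N → ℂ) : Prop :=
  ∀ s : ℂ, 3 / 2 + A / Real.log X ≤ s.re → |s.im| ≤ (X : ℝ) ^ c → ∀ y : ℕ,
    (Real.log X) ^ (1 / c) ≤ y → ‖LFunction a b γ s / partialProduct a b γ s y - 1‖ ≤ η

/-- **Elliptic curves over random number fields.**  Let `d`, `n`, `N` be integers, `n ≥ 1`, `B` real and
`δ > 0`.  There is `c > 0` and for every `η > 0` there are `A` and `X₀`, such that for all `X ≥ X₀`, all
number fields `F` of degree `d`, all monic polynomials `f` of degree `n` over `𝓞_F`, and any `m ≤ X^c`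
triples `(P_k, Q_k, γ_k)`, where `P_k` and `Q_k` are polynomials over `𝓞_F` of degree at most `2`, not
both constant, and `γ_k` is a system of `N` numbers of absolute value at most `1` for all primes
of `F`, the following holds for all integers `t` with `|t| ≤ X`, with at most `X^{1-c}` exceptions.  Let
`L = F(θ)` be any extension of `F` of degree `n` with `f(θ) = - t`, and `E_k` the curve
`y² = x³ + P_k(θ) x + Q_k(θ)` over `L`.  Then for all `k` the Euler products of `L(E_k ⊗ γ_k, s)`, with
the base change of `γ_k` to `L`, are stable in the half-plane `Re s ≥ 1 + δ` (`Stable`), and they are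
close to `L(E_k ⊗ γ_k, s)` for `Re s ≥ 3/2 + A / log X` (`Approximated`).

Here the conjugates of the coefficients of all `P_k`, `Q_k` and `f` are at most `exp((log X)^B)`. -/
theorem result (d n N : ℕ) (_ : 0 < n) (B δ : ℝ) (_ : 0 < δ) :
    ∃ c : ℝ, 0 < c ∧ ∀ η : ℝ, 0 < η → ∃ A : ℝ, ∃ X₀ : ℕ, ∀ X : ℕ, X₀ ≤ X →
      ∀ (F : Type) [Field F] [NumberField F], Module.finrank ℚ F = d →
      ∀ f : Polynomial (𝓞 F), f.Monic → f.natDegree = n →
      (∀ i, HeightLE (Real.exp ((Real.log X) ^ B)) (f.coeff i)) →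
      ∀ m : ℕ, (m : ℝ) ≤ (X : ℝ) ^ c → ∀ (P Q : Fin m → Polynomial (𝓞 F))
        (γ : Fin m → Ideal (𝓞 F) → Fin N → ℂ),
        (∀ k, (P k).natDegree ≤ 2 ∧ (Q k).natDegree ≤ 2 ∧ 0 < (P k).natDegree + (Q k).natDegree) →
        (∀ k i, HeightLE (Real.exp ((Real.log X) ^ B)) ((P k).coeff i) ∧
          HeightLE (Real.exp ((Real.log X) ^ B)) ((Q k).coeff i)) →
        (∀ k v j, ‖γ k v j‖ ≤ 1) →
        ({t : ℤ | |t| ≤ X ∧ ¬ ∀ (L : Type) [Field L] [NumberField L] [Algebra F L] (θ : 𝓞 L),
          Generates f t θ → ∀ k,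
            Stable δ c X (Polynomial.aeval θ (P k)) (Polynomial.aeval θ (Q k)) (baseChange L (γ k)) ∧
            Approximated η A c X (Polynomial.aeval θ (P k)) (Polynomial.aeval θ (Q k))
              (baseChange L (γ k))}.ncard : ℝ) ≤ (X : ℝ) ^ (1 - c) := by
  rename_i hn hδ
  obtain ⟨c, hc0, h⟩ := Pool.Agent.Y693.RF.thmB d n N hn B δ hδ
  refine ⟨c, hc0, fun η hη => ?_⟩
  obtain ⟨A, X₀, h2⟩ := h η hη
  refine ⟨A, X₀, fun X hX F _ _ hF f hf hfn hcoef m hm P Q γ hdeg hPQ hγ => ?_⟩
  have h1 := h2 X hX F hF f hf hfn hcoef m hm P Q γ hdeg (fun k i σ => ⟨(hPQ k i).1 σ, (hPQ k i).2 σ⟩) hγ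
  refine le_trans ?_ h1
  have hfin : {t : ℤ | |t| ≤ X ∧ ¬ ∀ (L : Type) [Field L] [NumberField L] [Algebra F L] (θ : 𝓞 L),
      Pool.Agent.Y693.RF.Gen (f + Polynomial.C (t : 𝓞 F)) θ → ∀ k,
        Pool.Agent.Y693.RF.B1 δ c X (Polynomial.aeval θ (P k)) (Polynomial.aeval θ (Q k))
          (Pool.Agent.Y693.RF.bc L (γ k)) ∧
        Pool.Agent.Y693.RF.B2 η A c X (Polynomial.aeval θ (P k)) (Polynomial.aeval θ (Q k))
          (Pool.Agent.Y693.RF.bc L (γ k))}.Finite := by
    refine Set.Finite.subset (Set.finite_Icc (-(X : ℤ)) X) fun t ht => ?_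
    have := abs_le.1 ht.1
    exact ⟨this.1, this.2⟩
  refine Nat.cast_le.2 (Set.ncard_le_ncard ?_ hfin)
  rintro t ⟨ht1, ht2⟩
  refine ⟨ht1, fun hcon => ht2 ?_⟩
  intro L _ _ _ θ hθ k
  exact hcon L θ ⟨hθ.1, by rw [hθ.2.1, Polynomial.natDegree_add_C], hθ.2.2⟩ k

end Pool.Agent.Results.MP_bf61d2_nt.RandomNumberFields
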